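import Pool.Agent.W787.PS.StmB

/-!
# Project PS, step LOC: local decomposition
-/

open MeasureTheory Set Metric Filter Topology
open scoped ContDiff

noncomputable section

namespace Pool.Agent.W738.PS

open Pool.Agent.W787.PS

/-- Directional derivative. -/
def D (v : ℂ) (f : ℂ → ℝ) (x : ℂ) : ℝ := fderiv ℝ f x v

/-- Laplacian. -/
def Lap (f : ℂ → ℝ) (x : ℂ) : ℝ := D 1 (D 1 f) x + D Complex.I (D Complex.I f) x

lemma hcs {b : ℂ → ℝ} {R : ℝ} (hs : tsupport b ⊆ ball 0 R) : HasCompactSupport b :=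
  IsCompact.of_isClosed_subset (isCompact_closedBall 0 R) (isClosed_tsupport b)
    (hs.trans ball_subset_closedBall)

lemma contDiff_mul_ext {a b : ℂ → ℝ} (ha : ContDiffOn ℝ ∞ a (ball 0 8)) (hb : ContDiff ℝ ∞ b)
    (hs : tsupport b ⊆ ball 0 8) : ContDiff ℝ ∞ (fun x => a x * b x) := by
  rw [contDiff_iff_contDiffAt]
  intro x
  by_cases hx : x ∈ ball (0 : ℂ) 8
  · exact (ha.contDiffAt (isOpen_ball.mem_nhds hx)).mul hb.contDiffAt
  · have hx' : x ∉ tsupport b := fun h => hx (hs h)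
    have h1 : b =ᶠ[𝓝 x] 0 := notMem_tsupport_iff_eventuallyEq.mp hx'
    have h2 : (fun x => a x * b x) =ᶠ[𝓝 x] fun _ => 0 := by
      filter_upwards [h1] with y hy
      simp [hy]
    exact contDiffAt_const.congr_of_eventuallyEq h2

lemma D_mul_ext {a b : ℂ → ℝ} (ha : ContDiffOn ℝ ∞ a (ball 0 8)) (hb : ContDiff ℝ ∞ b)
    (hs : tsupport b ⊆ ball 0 8) (v : ℂ) :
    D v (fun x => a x * b x) = fun x => D v a x * b x + a x * D v b x := by
  funext x
  by_cases hx : x ∈ ball (0 : ℂ) 8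
  · have h1 : DifferentiableAt ℝ a x :=
      (ha.contDiffAt (isOpen_ball.mem_nhds hx)).differentiableAt (by simp)
    have h2 : DifferentiableAt ℝ b x := hb.contDiffAt.differentiableAt (by simp)
    unfold D
    rw [show (fun x => a x * b x) = a * b from rfl, fderiv_mul h1 h2]
    simp only [add_apply, smul_apply, smul_eq_mul]
    ring
  · have hx' : x ∉ tsupport b := fun h => hx (hs h)
    have h1 : b =ᶠ[𝓝 x] 0 := notMem_tsupport_iff_eventuallyEq.mp hx'
    have h2 : (fun x => a x * b x) =ᶠ[𝓝 x] fun _ => 0 := by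
      filter_upwards [h1] with y hy
      simp [hy]
    unfold D
    rw [h2.fderiv_eq, h1.fderiv_eq]
    have h3 : b x = 0 := by simpa using h1.self_of_nhds
    simp [h3]

lemma contDiffOn_D {a : ℂ → ℝ} (ha : ContDiffOn ℝ ∞ a (ball 0 8)) (v : ℂ) :
    ContDiffOn ℝ ∞ (D v a) (ball 0 8) :=
  (ha.fderiv_of_isOpen isOpen_ball (by simp)).clm_apply contDiffOn_const

lemma contDiff_D {a : ℂ → ℝ} (ha : ContDiff ℝ ∞ a) (v : ℂ) : ContDiff ℝ ∞ (D v a) :=
  (ha.fderiv_right (by simp)).clm_apply contDiff_const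

lemma tsupport_D (a : ℂ → ℝ) (v : ℂ) : tsupport (D v a) ⊆ tsupport a :=
  tsupport_fderiv_apply_subset ℝ v

lemma contDiffOn_Lap {a : ℂ → ℝ} (ha : ContDiffOn ℝ ∞ a (ball 0 8)) :
    ContDiffOn ℝ ∞ (Lap a) (ball 0 8) :=
  (contDiffOn_D (contDiffOn_D ha 1) 1).add (contDiffOn_D (contDiffOn_D ha _) _)

lemma contDiff_Lap {a : ℂ → ℝ} (ha : ContDiff ℝ ∞ a) : ContDiff ℝ ∞ (Lap a) :=
  (contDiff_D (contDiff_D ha 1) 1).add (contDiff_D (contDiff_D ha _) _)

lemma tsupport_Lap (a : ℂ → ℝ) : tsupport (Lap a) ⊆ tsupport a := by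
  apply closure_minimal _ (isClosed_tsupport a)
  intro x hx
  by_contra hn
  apply hx
  have h1 : x ∉ tsupport (D 1 (D 1 a)) := fun h => hn (tsupport_D _ _ (tsupport_D _ _ h))
  have h2 : x ∉ tsupport (D Complex.I (D Complex.I a)) :=
    fun h => hn (tsupport_D _ _ (tsupport_D _ _ h))
  unfold Lap
  rw [image_eq_zero_of_notMem_tsupport h1, image_eq_zero_of_notMem_tsupport h2, add_zero]

lemma Lap_mul_ext {a b : ℂ → ℝ} (ha : ContDiffOn ℝ ∞ a (ball 0 8)) (hb : ContDiff ℝ ∞ b)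
    (hs : tsupport b ⊆ ball 0 8) (x : ℂ) :
    Lap (fun x => a x * b x) x = Lap a x * b x + 2 * gdot b a x + a x * Lap b x := by
  have key : ∀ v : ℂ, D v (D v (fun x => a x * b x)) x
      = D v (D v a) x * b x + 2 * (D v a x * D v b x) + a x * D v (D v b) x := by
    intro v
    rw [D_mul_ext ha hb hs]
    have e1 := D_mul_ext (contDiffOn_D ha v) hb hs v
    have e2 := D_mul_ext ha (contDiff_D hb v) ((tsupport_D b v).trans hs) v
    have hd1 : DifferentiableAt ℝ (fun x => D v a x * b x) x :=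
      (contDiff_mul_ext (contDiffOn_D ha v) hb hs).contDiffAt.differentiableAt (by simp)
    have hd2 : DifferentiableAt ℝ (fun x => a x * D v b x) x :=
      (contDiff_mul_ext ha (contDiff_D hb v)
        ((tsupport_D b v).trans hs)).contDiffAt.differentiableAt (by simp)
    have e3 : D v (fun x => D v a x * b x + a x * D v b x) x
        = D v (fun x => D v a x * b x) x + D v (fun x => a x * D v b x) x := by
      unfold D
      unfold D at hd1 hd2
      rw [fderiv_fun_add hd1 hd2]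
      rfl
    rw [e3, e1, e2]
    ring
  unfold Lap
  rw [key 1, key Complex.I]
  unfold gdot D
  ring

/-! ### Linearity of the potential -/

lemma pot_add (h4 : S_POTI) {f g : ℂ → ℝ} (hf : Continuous f) (hf' : HasCompactSupport f)
    (hg : Continuous g) (hg' : HasCompactSupport g) (x : ℂ) :
    pot (fun y => f y + g y) x = pot f x + pot g x := by
  unfold pot
  rw [← mul_add, ← integral_add ((h4 f hf hf').1 x) ((h4 g hg hg').1 x)]
  congr 1
  apply integral_congr_ae
  filter_upwards with y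
  ring

lemma pot_smul (c : ℝ) (f : ℂ → ℝ) (x : ℂ) : pot (fun y => c * f y) x = c * pot f x := by
  unfold pot
  have : (fun y => Real.log ‖x - y‖ * (c * f y)) = fun y => c * (Real.log ‖x - y‖ * f y) := by
    funext y; ring
  rw [this, integral_const_mul]
  ring

/-- `pot (Lap U) = -U`. -/
lemma pot_Lap (h2 : S_POTD) (h3 : S_FS) (h4 : S_POTI) {U : ℂ → ℝ} (hU : ContDiff ℝ ∞ U)
    (hc : HasCompactSupport U) (x : ℂ) : pot (Lap U) x = - U x := by
  have hD : ∀ v, ContDiff ℝ ∞ (D v U) := fun v => contDiff_D hU v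
  have hDc : ∀ v, HasCompactSupport (D v U) := fun v => hc.mono' ((subset_tsupport _).trans
    (tsupport_D U v))
  have hDDc : ∀ v, HasCompactSupport (D v (D v U)) := fun v => (hDc v).mono'
    ((subset_tsupport _).trans (tsupport_D _ v))
  have e0 : pot (Lap U) x = pot (D 1 (D 1 U)) x + pot (D Complex.I (D Complex.I U)) x :=
    pot_add h4 (contDiff_D (hD 1) 1).continuous (hDDc 1)
      (contDiff_D (hD _) _).continuous (hDDc _) x
  have e1 : ∀ v, pot (D v (D v U)) x =
      -(1 / (2 * Real.pi)) * ∫ y, inner ℝ (x - y) v / ‖x - y‖ ^ 2 * D v U y := by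
    intro v
    have hh := h2 (D v U) ((hD v).of_le (by simp)) (hDc v)
    rw [← hh.2.2.2 x v, hh.2.1 x v]
    rfl
  have hi : ∀ v, Integrable (fun y => inner ℝ (x - y) v / ‖x - y‖ ^ 2 * D v U y) := by
    intro v
    exact (h2 (D v U) ((hD v).of_le (by simp)) (hDc v)).2.2.1 x v
  rw [e0, e1, e1, ← mul_add, ← integral_add (hi _) (hi _)]
  have e2 := (h3 U (hU.of_le (by simp)) hc x).2
  rw [e2]
  have e3 : (fun y => inner ℝ (x - y) (1 : ℂ) / ‖x - y‖ ^ 2 * D 1 U y +
      inner ℝ (x - y) Complex.I / ‖x - y‖ ^ 2 * D Complex.I U y)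
      = fun y => - (fderiv ℝ U y (y - x) / ‖y - x‖ ^ 2) := by
    funext y
    have h5 : fderiv ℝ U y (y - x) = - ((x - y).re * D 1 U y + (x - y).im * D Complex.I U y) := by
      have : y - x = (-(x - y).re) • (1 : ℂ) + (-(x - y).im) • Complex.I := by
        apply Complex.ext <;> simp
      conv_lhs => rw [this]
      rw [map_add, map_smul, map_smul]
      unfold D
      simp only [smul_eq_mul]
      ring
    have h6 : inner ℝ (x - y) (1 : ℂ) = (x - y).re := by
      rw [Complex.inner]; simp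
    have h7 : inner ℝ (x - y) Complex.I = (x - y).im := by
      rw [Complex.inner]; simp; ring
    rw [h5, h6, h7, norm_sub_rev y x]
    ring
  rw [e3, integral_neg]
  ring

/-! ### Integration by parts -/

lemma integral_D {G : ℂ → ℝ} (hG : ContDiff ℝ ∞ G) (hc : HasCompactSupport G) (v : ℂ) :
    ∫ x, D v G x = 0 := by
  have h1 : Integrable (fun x => (1 : ℝ) * fderiv ℝ G x v) := by
    have hcont : Continuous (D v G) := (contDiff_D hG v).continuous
    have : Integrable (D v G) := hcont.integrable_of_hasCompactSupport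
      (hc.mono' ((subset_tsupport _).trans (tsupport_D G v)))
    simp only [one_mul]
    exact this
  have h2 : Integrable (fun x => fderiv ℝ (fun _ : ℂ => (1 : ℝ)) x v * G x) := by simp
  have h3 : Integrable (fun x => (1 : ℝ) * G x) := by
    simpa using hG.continuous.integrable_of_hasCompactSupport hc
  have := integral_mul_fderiv_eq_neg_fderiv_mul_of_integrable (μ := (volume : Measure ℂ))
    (f := fun _ : ℂ => (1 : ℝ)) (g := G) (v := v) h2 h1 h3 (fun x _ => differentiableAt_const _)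
    (fun x _ => hG.differentiable (by simp) x)
  simp only [one_mul, fderiv_fun_const, Pi.zero_apply, zero_apply, zero_mul, integral_zero,
    neg_zero] at this
  exact this

lemma ibp {u φ : ℂ → ℝ} (hu : ContDiffOn ℝ ∞ u (ball 0 8)) (hφ : ContDiff ℝ ∞ φ)
    (hs : tsupport φ ⊆ ball 0 8) :
    Integrable (fun x => gdot u φ x) ∧ Integrable (fun x => Lap u x * φ x) ∧
    ∫ x, gdot u φ x = - ∫ x, Lap u x * φ x := by
  have hI : ∀ v, Integrable (fun x => D v u x * D v φ x) ∧
      Integrable (fun x => D v (D v u) x * φ x) ∧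
      (∫ x, D v (D v u) x * φ x) + ∫ x, D v u x * D v φ x = 0 := by
    intro v
    have i1 : Integrable (fun x => D v u x * D v φ x) :=
      (contDiff_mul_ext (contDiffOn_D hu v) (contDiff_D hφ v)
        ((tsupport_D φ v).trans hs)).continuous.integrable_of_hasCompactSupport
        (hcs ((tsupport_mul_subset_right).trans ((tsupport_D φ v).trans hs)))
    have i2 : Integrable (fun x => D v (D v u) x * φ x) :=
      (contDiff_mul_ext (contDiffOn_D (contDiffOn_D hu v) v) hφ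
        hs).continuous.integrable_of_hasCompactSupport
        (hcs ((tsupport_mul_subset_right).trans hs))
    refine ⟨i1, i2, ?_⟩
    have e := integral_D (contDiff_mul_ext (contDiffOn_D hu v) hφ hs)
      (hcs ((tsupport_mul_subset_right).trans hs)) v
    rw [D_mul_ext (contDiffOn_D hu v) hφ hs v] at e
    rw [integral_add i2 i1] at e
    exact e
  obtain ⟨a1, a2, a3⟩ := hI 1
  obtain ⟨b1, b2, b3⟩ := hI Complex.I
  have eL : (fun x => Lap u x * φ x)
      = fun x => D 1 (D 1 u) x * φ x + D Complex.I (D Complex.I u) x * φ x := by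
    funext x; unfold Lap; ring
  have eG : (fun x => gdot u φ x)
      = fun x => D 1 u x * D 1 φ x + D Complex.I u x * D Complex.I φ x := by
    funext x; rfl
  refine ⟨?_, ?_, ?_⟩
  · rw [eG]; exact a1.add b1
  · rw [eL]; exact a2.add b2
  · rw [eG, eL, integral_add a1 b1, integral_add a2 b2]
    linarith

/-! ### The kernel -/

/-- The inversion. -/
lemma inv_lip {a b v : ℂ} (ha : 1 ≤ ‖a‖) (hb : 1 ≤ ‖b‖) (hv : ‖v‖ = 1) :
    |inner ℝ a v / ‖a‖ ^ 2 - inner ℝ b v / ‖b‖ ^ 2| ≤ ‖a - b‖ := by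
  have ha0 : a ≠ 0 := by intro h; simp [h] at ha; linarith
  have hb0 : b ≠ 0 := by intro h; simp [h] at hb; linarith
  have h1 := dist_div_norm_sq_smul ha0 hb0 1
  have h2 : inner ℝ a v / ‖a‖ ^ 2 - inner ℝ b v / ‖b‖ ^ 2
      = inner ℝ (((1 : ℝ) / ‖a‖) ^ 2 • a - ((1 : ℝ) / ‖b‖) ^ 2 • b) v := by
    rw [inner_sub_left, real_inner_smul_left, real_inner_smul_left]
    ring
  rw [h2]
  calc |inner ℝ (((1 : ℝ) / ‖a‖) ^ 2 • a - ((1 : ℝ) / ‖b‖) ^ 2 • b) v|
      ≤ ‖((1 : ℝ) / ‖a‖) ^ 2 • a - ((1 : ℝ) / ‖b‖) ^ 2 • b‖ * ‖v‖ := abs_real_inner_le_norm _ _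
    _ = 1 ^ 2 / (‖a‖ * ‖b‖) * ‖a - b‖ := by rw [hv, mul_one, ← dist_eq_norm, h1, dist_eq_norm]
    _ ≤ 1 * ‖a - b‖ := by
        apply mul_le_mul_of_nonneg_right _ (norm_nonneg _)
        rw [div_le_one (by positivity)]
        nlinarith
    _ = ‖a - b‖ := one_mul _

lemma inv_bd {a v : ℂ} (ha : 1 ≤ ‖a‖) (hv : ‖v‖ = 1) : |inner ℝ a v / ‖a‖ ^ 2| ≤ 1 := by
  rw [abs_div, abs_of_pos (show (0 : ℝ) < ‖a‖ ^ 2 by positivity), div_le_one (by positivity)]
  calc |inner ℝ a v| ≤ ‖a‖ * ‖v‖ := abs_real_inner_le_norm _ _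
    _ = ‖a‖ := by rw [hv, mul_one]
    _ ≤ ‖a‖ ^ 2 := by nlinarith

lemma log_lip {s t : ℝ} (hs : 1 ≤ s) (ht : 1 ≤ t) : |Real.log s - Real.log t| ≤ |s - t| := by
  have key : ∀ s t : ℝ, 1 ≤ s → s ≤ t → Real.log t - Real.log s ≤ t - s := by
    intro s t hs hst
    rw [← Real.log_div (by linarith) (by linarith)]
    calc Real.log (t / s) ≤ t / s - 1 := Real.log_le_sub_one_of_pos (by
          have : 0 < s := by linarith
          have : 0 < t := by linarith
          positivity)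
      _ = (t - s) / s := by
          have : s ≠ 0 := by linarith
          field_simp
      _ ≤ t - s := div_le_self (by linarith) hs
  rcases le_total s t with h | h
  · rw [abs_sub_comm, abs_sub_comm s t, abs_of_nonneg, abs_of_nonneg (by linarith)]
    · exact key s t hs h
    · have := Real.log_le_log (by linarith) h; linarith
  · rw [abs_of_nonneg, abs_of_nonneg (by linarith)]
    · exact key t s ht h
    · have := Real.log_le_log (by linarith) h; linarith

/-- The kernel. -/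
def K (ζ : ℂ → ℝ) (x y : ℂ) : ℝ :=
  1 / Real.pi * (inner ℝ (x - y) (1 : ℂ) / ‖x - y‖ ^ 2 * D 1 ζ y +
    inner ℝ (x - y) Complex.I / ‖x - y‖ ^ 2 * D Complex.I ζ y)
    - 1 / (2 * Real.pi) * (Real.log ‖x - y‖ * Lap ζ y)

lemma pi_one : 1 / Real.pi ≤ 1 := by
  rw [div_le_one Real.pi_pos]; linarith [Real.pi_gt_three]

lemma two_pi_one : 1 / (2 * Real.pi) ≤ 1 := by
  rw [div_le_one (by linarith [Real.pi_pos])]; linarith [Real.pi_gt_three]

lemma K_bd {ζ : ℂ → ℝ} {M : ℝ} (hM1 : ∀ y v, ‖v‖ = 1 → |D v ζ y| ≤ M) (hM2 : ∀ y, |Lap ζ y| ≤ M)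
    {x y : ℂ} (hx : ‖x‖ < 1) (hy : 2 ≤ ‖y‖) (hy' : ‖y‖ < 4) : |K ζ x y| ≤ 7 * M := by
  have h1 : 1 ≤ ‖x - y‖ := by
    have := norm_sub_norm_le y x
    rw [norm_sub_rev] at this
    linarith
  have h2 : ‖x - y‖ ≤ 5 := by
    have := norm_sub_le x y
    linarith
  have hM : 0 ≤ M := (abs_nonneg _).trans (hM2 0)
  have e1 : |inner ℝ (x - y) (1 : ℂ) / ‖x - y‖ ^ 2 * D 1 ζ y| ≤ 1 * M := by
    rw [abs_mul]
    exact mul_le_mul (inv_bd h1 (by simp)) (hM1 _ _ (by simp)) (abs_nonneg _) (by norm_num)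
  have e2 : |inner ℝ (x - y) Complex.I / ‖x - y‖ ^ 2 * D Complex.I ζ y| ≤ 1 * M := by
    rw [abs_mul]
    exact mul_le_mul (inv_bd h1 (by simp)) (hM1 _ _ (by simp)) (abs_nonneg _) (by norm_num)
  have e3 : |Real.log ‖x - y‖ * Lap ζ y| ≤ 5 * M := by
    rw [abs_mul]
    refine mul_le_mul ?_ (hM2 _) (abs_nonneg _) (by norm_num)
    rw [abs_of_nonneg (Real.log_nonneg h1)]
    have := Real.log_le_sub_one_of_pos (show 0 < ‖x - y‖ by linarith)
    linarith
  unfold K
  have hp : 0 < 1 / Real.pi := by positivity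
  have hp2 : 0 < 1 / (2 * Real.pi) := by positivity
  calc _ ≤ |1 / Real.pi * (inner ℝ (x - y) (1 : ℂ) / ‖x - y‖ ^ 2 * D 1 ζ y +
            inner ℝ (x - y) Complex.I / ‖x - y‖ ^ 2 * D Complex.I ζ y)|
          + |1 / (2 * Real.pi) * (Real.log ‖x - y‖ * Lap ζ y)| := abs_sub _ _
    _ ≤ 1 * (1 * M + 1 * M) + 1 * (5 * M) := by
        rw [abs_mul, abs_mul, abs_of_pos hp, abs_of_pos hp2]
        gcongr
        · exact pi_one
        · exact (abs_add_le _ _).trans (add_le_add e1 e2)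
        · exact two_pi_one
    _ = 7 * M := by ring

lemma K_lip {ζ : ℂ → ℝ} {M : ℝ} (hM1 : ∀ y v, ‖v‖ = 1 → |D v ζ y| ≤ M)
    (hM2 : ∀ y, |Lap ζ y| ≤ M) {x x' y : ℂ} (hx : ‖x‖ < 1) (hx' : ‖x'‖ < 1) (hy : 2 ≤ ‖y‖) :
    |K ζ x y - K ζ x' y| ≤ 7 * M * ‖x - x'‖ := by
  have h1 : 1 ≤ ‖x - y‖ := by
    have := norm_sub_norm_le y x
    rw [norm_sub_rev] at this
    linarith
  have h1' : 1 ≤ ‖x' - y‖ := by
    have := norm_sub_norm_le y x'
    rw [norm_sub_rev] at this
    linarith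
  have hM : 0 ≤ M := (abs_nonneg _).trans (hM2 0)
  have hn : (x - y) - (x' - y) = x - x' := by ring
  have e1 : |(inner ℝ (x - y) (1 : ℂ) / ‖x - y‖ ^ 2 - inner ℝ (x' - y) (1 : ℂ) / ‖x' - y‖ ^ 2)
      * D 1 ζ y| ≤ ‖x - x'‖ * M := by
    rw [abs_mul]
    have := inv_lip h1 h1' (v := 1) (by simp)
    rw [hn] at this
    exact mul_le_mul this (hM1 _ _ (by simp)) (abs_nonneg _) (norm_nonneg _)
  have e2 : |(inner ℝ (x - y) Complex.I / ‖x - y‖ ^ 2 - inner ℝ (x' - y) Complex.I / ‖x' - y‖ ^ 2)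
      * D Complex.I ζ y| ≤ ‖x - x'‖ * M := by
    rw [abs_mul]
    have := inv_lip h1 h1' (v := Complex.I) (by simp)
    rw [hn] at this
    exact mul_le_mul this (hM1 _ _ (by simp)) (abs_nonneg _) (norm_nonneg _)
  have e3 : |(Real.log ‖x - y‖ - Real.log ‖x' - y‖) * Lap ζ y| ≤ ‖x - x'‖ * M := by
    rw [abs_mul]
    refine mul_le_mul ?_ (hM2 _) (abs_nonneg _) (norm_nonneg _)
    refine (log_lip h1 h1').trans ?_
    have := abs_norm_sub_norm_le (x - y) (x' - y)
    rwa [hn] at this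
  have hp : 0 < 1 / Real.pi := by positivity
  have hp2 : 0 < 1 / (2 * Real.pi) := by positivity
  have e0 : K ζ x y - K ζ x' y = 1 / Real.pi *
      ((inner ℝ (x - y) (1 : ℂ) / ‖x - y‖ ^ 2 - inner ℝ (x' - y) (1 : ℂ) / ‖x' - y‖ ^ 2) * D 1 ζ y
      + (inner ℝ (x - y) Complex.I / ‖x - y‖ ^ 2 - inner ℝ (x' - y) Complex.I / ‖x' - y‖ ^ 2)
      * D Complex.I ζ y)
      - 1 / (2 * Real.pi) * ((Real.log ‖x - y‖ - Real.log ‖x' - y‖) * Lap ζ y) := by
    unfold K; ring
  rw [e0]
  calc _ ≤ _ := abs_sub _ _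
    _ ≤ 1 * (‖x - x'‖ * M + ‖x - x'‖ * M) + 1 * (‖x - x'‖ * M) := by
        rw [abs_mul, abs_mul, abs_of_pos hp, abs_of_pos hp2]
        gcongr
        · exact pi_one
        · exact (abs_add_le _ _).trans (add_le_add e1 e2)
        · exact two_pi_one
    _ ≤ 7 * M * ‖x - x'‖ := by nlinarith [mul_nonneg hM (norm_nonneg (x - x'))]

lemma int_bd {k ut : ℂ → ℝ} {B A : ℝ} (hB : 0 ≤ B)
    (hut : IntegrableOn ut (ball 0 4)) (hA : ∫ x in ball (0 : ℂ) 4, |ut x| ≤ A)
    (h : ∀ y, |k y| ≤ (ball (0 : ℂ) 4).indicator (fun y => B * |ut y|) y) :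
    |∫ y, k y| ≤ B * A := by
  have hi : Integrable ((ball (0 : ℂ) 4).indicator (fun y => B * |ut y|)) := by
    rw [integrable_indicator_iff measurableSet_ball]
    exact hut.abs.const_mul B
  have h1 := norm_integral_le_of_norm_le hi (Eventually.of_forall (fun y => by
    rw [Real.norm_eq_abs]; exact h y))
  rw [Real.norm_eq_abs, integral_indicator measurableSet_ball, integral_const_mul] at h1
  exact h1.trans (mul_le_mul_of_nonneg_left hA hB)

/-- Local decomposition `u = pot (ζ F) + g + w`: the statement `S_LOC` with the intended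
parentheses in the hypothesis on test functions. -/
def S_LOC2 : Prop := ∃ (ζ : ℂ → ℝ) (C : ℝ), 0 < C ∧ ContDiff ℝ ∞ ζ ∧ tsupport ζ ⊆ ball 0 4 ∧
  (∀ x, 0 ≤ ζ x ∧ ζ x ≤ 1) ∧ (∀ x ∈ closedBall (0 : ℂ) 2, ζ x = 1) ∧
  ∀ (u F : ℂ → ℝ) (c A ε : ℝ), ContDiffOn ℝ ∞ u (ball 0 8) → ContDiffOn ℝ ∞ F (ball 0 8) →
  0 ≤ ε → ∫ x in ball (0 : ℂ) 4, |u x - c| ≤ A →
  (∀ φ : ℂ → ℝ, ContDiff ℝ ∞ φ → tsupport φ ⊆ ball 0 8 →
    |(∫ x, gdot u φ x) - ∫ x, F x * φ x| ≤ ε * Real.sqrt (∫ x, nsq φ x)) →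
  ∃ g w : ℂ → ℝ, ContDiffOn ℝ 1 g (ball 0 1) ∧ ContDiff ℝ 1 w ∧
    (∀ x ∈ ball (0 : ℂ) 1, nsq g x ≤ (C * A) ^ 2) ∧
    (∀ x ∈ ball (0 : ℂ) 1, |g x - c| ≤ C * A) ∧
    ∫ x in ball (0 : ℂ) 1, nsq w x ≤ (C * ε) ^ 2 ∧
    ∀ x ∈ ball (0 : ℂ) 1, u x = pot (fun y => ζ y * F y) x + g x + w x

/-! ### The representation of `pot` of the commutator -/

lemma pot_S (h2 : S_POTD) (h4 : S_POTI) {u ζ : ℂ → ℝ} (hu : ContDiffOn ℝ ∞ u (ball 0 8))
    (hζ : ContDiff ℝ ∞ ζ) (hs : tsupport ζ ⊆ ball 0 8) (c : ℝ) (x : ℂ) :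
    Integrable (fun y => K ζ x y * (u y - c)) ∧
    pot (fun y => -(2 * gdot ζ u y + (u y - c) * Lap ζ y)) x = ∫ y, K ζ x y * (u y - c) := by
  have hut : ContDiffOn ℝ ∞ (fun y => u y - c) (ball 0 8) := hu.sub contDiffOn_const
  have hDu : ∀ v y, D v (fun y => u y - c) y = D v u y := by
    intro v y; unfold D; rw [fderiv_sub_const]
  have hDs : ∀ v, tsupport (D v ζ) ⊆ ball 0 8 := fun v => (tsupport_D ζ v).trans hs
  have hf : ∀ v, ContDiff ℝ ∞ (fun y => (u y - c) * D v ζ y) := fun v =>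
    contDiff_mul_ext hut (contDiff_D hζ v) (hDs v)
  have hfs : ∀ v, tsupport (fun y => (u y - c) * D v ζ y) ⊆ ball 0 8 := fun v =>
    (tsupport_mul_subset_right).trans (hDs v)
  have hfc : ∀ v, HasCompactSupport (fun y => (u y - c) * D v ζ y) := fun v => hcs (hfs v)
  have hL : ContDiff ℝ ∞ (fun y => (u y - c) * Lap ζ y) :=
    contDiff_mul_ext hut (contDiff_Lap hζ) ((tsupport_Lap ζ).trans hs)
  have hLc : HasCompactSupport (fun y => (u y - c) * Lap ζ y) :=
    hcs ((tsupport_mul_subset_right).trans ((tsupport_Lap ζ).trans hs))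
  have hG : ∀ v, Continuous (D v (fun y => (u y - c) * D v ζ y)) := fun v =>
    (contDiff_D (hf v) v).continuous
  have hGc : ∀ v, HasCompactSupport (D v (fun y => (u y - c) * D v ζ y)) := fun v =>
    hcs ((tsupport_D _ v).trans (hfs v))
  have e0 : (fun y => -(2 * gdot ζ u y + (u y - c) * Lap ζ y)) = fun y =>
      ((-2) * D 1 (fun y => (u y - c) * D 1 ζ y) y +
        (-2) * D Complex.I (fun y => (u y - c) * D Complex.I ζ y) y)
        + (u y - c) * Lap ζ y := by
    funext y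
    rw [D_mul_ext hut (contDiff_D hζ 1) (hDs 1) 1,
      D_mul_ext hut (contDiff_D hζ Complex.I) (hDs Complex.I) Complex.I]
    simp only [hDu]
    unfold gdot Lap D
    ring
  have hc2 : ∀ v, HasCompactSupport (fun y => (-2) * D v (fun y => (u y - c) * D v ζ y) y) :=
    fun v => (hGc v).mul_left
  have hcc : ∀ v, Continuous (fun y => (-2) * D v (fun y => (u y - c) * D v ζ y) y) :=
    fun v => continuous_const.mul (hG v)
  have e1 : pot (fun y => -(2 * gdot ζ u y + (u y - c) * Lap ζ y)) x =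
      (-2) * pot (D 1 (fun y => (u y - c) * D 1 ζ y)) x +
      (-2) * pot (D Complex.I (fun y => (u y - c) * D Complex.I ζ y)) x
      + pot (fun y => (u y - c) * Lap ζ y) x := by
    have q1 := pot_add h4 ((hcc 1).add (hcc Complex.I)) ((hc2 1).add (hc2 Complex.I))
      hL.continuous hLc x
    have q2 := pot_add h4 (hcc 1) (hc2 1) (hcc Complex.I) (hc2 Complex.I) x
    rw [pot_smul, pot_smul] at q2
    rw [e0, ← q2]
    exact q1
  have e2 : ∀ v, pot (D v (fun y => (u y - c) * D v ζ y)) x =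
      -(1 / (2 * Real.pi)) * ∫ y, inner ℝ (x - y) v / ‖x - y‖ ^ 2 * ((u y - c) * D v ζ y) := by
    intro v
    have hh := h2 _ ((hf v).of_le (by simp)) (hfc v)
    rw [← hh.2.2.2 x v, hh.2.1 x v]
    rfl
  have hi : ∀ v, Integrable
      (fun y => inner ℝ (x - y) v / ‖x - y‖ ^ 2 * ((u y - c) * D v ζ y)) := by
    intro v
    exact (h2 _ ((hf v).of_le (by simp)) (hfc v)).2.2.1 x v
  have hi0 : Integrable (fun y => Real.log ‖x - y‖ * ((u y - c) * Lap ζ y)) :=
    (h4 _ hL.continuous hLc).1 x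
  have eK : (fun y => K ζ x y * (u y - c)) = fun y =>
      1 / Real.pi * (inner ℝ (x - y) (1 : ℂ) / ‖x - y‖ ^ 2 * ((u y - c) * D 1 ζ y)
        + inner ℝ (x - y) Complex.I / ‖x - y‖ ^ 2 * ((u y - c) * D Complex.I ζ y))
      - 1 / (2 * Real.pi) * (Real.log ‖x - y‖ * ((u y - c) * Lap ζ y)) := by
    funext y; unfold K; ring
  have hiK : Integrable (fun y => K ζ x y * (u y - c)) := by
    rw [eK]
    exact (((hi 1).add (hi Complex.I)).const_mul _).sub (hi0.const_mul _)
  refine ⟨hiK, ?_⟩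
  rw [e1, e2, e2, eK]
  have e4 := integral_sub (((hi 1).add (hi Complex.I)).const_mul (1 / Real.pi))
    (hi0.const_mul (1 / (2 * Real.pi)))
  have e3 := integral_add (hi 1) (hi Complex.I)
  simp only [Pi.add_apply] at e4
  rw [e4, integral_const_mul, integral_const_mul, e3]
  unfold pot
  have hp : Real.pi ≠ 0 := Real.pi_ne_zero
  field_simp
  ring

/-- Step LOC. -/
theorem loc (h1 : S_LOCW) (h2 : S_POTD) (h3 : S_FS) (h4 : S_POTI) : S_LOC2 := by
  -- the cutoff
  let b : ContDiffBump (0 : ℂ) := ⟨2, 3, by norm_num, by norm_num⟩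
  obtain ⟨ζ, hζdef⟩ : ∃ ζ : ℂ → ℝ, ζ = fun x => b x := ⟨_, rfl⟩
  have hζ : ContDiff ℝ ∞ ζ := by rw [hζdef]; exact b.contDiff
  have hζs : tsupport ζ ⊆ ball 0 4 := by
    rw [hζdef]
    have : tsupport (fun x => b x) = closedBall 0 3 := b.tsupport_eq
    rw [this]
    exact closedBall_subset_ball (by norm_num)
  have hζ01 : ∀ x, 0 ≤ ζ x ∧ ζ x ≤ 1 := by
    intro x; rw [hζdef]; exact ⟨b.nonneg, b.le_one⟩
  have hζ1 : ∀ x ∈ closedBall (0 : ℂ) 2, ζ x = 1 := by
    intro x hx; rw [hζdef]; exact b.one_of_mem_closedBall hx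
  clear hζdef
  have hζs8 : tsupport ζ ⊆ ball 0 8 := hζs.trans (ball_subset_ball (by norm_num))
  obtain ⟨C₁, hC₁, hW⟩ := h1 ζ hζ hζs hζ01 hζ1
  -- bounds for the derivatives of the cutoff
  obtain ⟨M₁, hM₁⟩ : ∃ C, ∀ x, ‖fderiv ℝ ζ x‖ ≤ C :=
    (hζ.continuous_fderiv (by simp)).bounded_above_of_compact_support
      ((hcs hζs).fderiv ℝ)
  obtain ⟨M₂, hM₂⟩ : ∃ C, ∀ x, ‖Lap ζ x‖ ≤ C :=
    (contDiff_Lap hζ).continuous.bounded_above_of_compact_support
      (hcs ((tsupport_Lap ζ).trans hζs))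
  set M := max M₁ M₂ with hM
  have hMD : ∀ y v, ‖v‖ = 1 → |D v ζ y| ≤ M := by
    intro y v hv
    have := (fderiv ℝ ζ y).le_opNorm v
    rw [hv, mul_one, Real.norm_eq_abs] at this
    exact this.trans ((hM₁ y).trans (le_max_left _ _))
  have hML : ∀ y, |Lap ζ y| ≤ M := fun y => (hM₂ y).trans (le_max_right _ _)
  have hM0 : 0 ≤ M := (abs_nonneg _).trans (hML 0)
  -- where the derivatives of the cutoff vanish
  have hz : ∀ x y, ¬ (2 ≤ ‖y‖ ∧ ‖y‖ < 4) → K ζ x y = 0 := by
    intro x y hy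
    have hD0 : (∀ v, D v ζ y = 0) ∧ Lap ζ y = 0 := by
      by_cases h : 2 ≤ ‖y‖
      · have hn : y ∉ tsupport ζ := by
          intro h'
          have := hζs h'
          rw [mem_ball_zero_iff] at this
          exact hy ⟨h, this⟩
        exact ⟨fun v => image_eq_zero_of_notMem_tsupport fun h' => hn (tsupport_D ζ v h'),
          image_eq_zero_of_notMem_tsupport fun h' => hn (tsupport_Lap ζ h')⟩
      · push Not at h
        have e1 : ζ =ᶠ[𝓝 y] fun _ => 1 := by
          filter_upwards [isOpen_ball.mem_nhds (show y ∈ ball (0 : ℂ) 2 by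
            rw [mem_ball_zero_iff]; exact h)] with z hz
          exact hζ1 z (ball_subset_closedBall hz)
        have e2 : ∀ v, D v ζ =ᶠ[𝓝 y] fun _ => 0 := by
          intro v
          filter_upwards [e1.eventuallyEq_nhds] with z hz
          unfold D
          rw [hz.fderiv_eq]; simp
        refine ⟨fun v => (e2 v).self_of_nhds, ?_⟩
        unfold Lap
        have e3 : ∀ v, D v (D v ζ) y = 0 := by
          intro v
          have : fderiv ℝ (D v ζ) y = fderiv ℝ (fun _ : ℂ => (0 : ℝ)) y :=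
            (e2 v).fderiv_eq
          show fderiv ℝ (D v ζ) y v = 0
          rw [this]; simp
        rw [e3, e3, add_zero]
    unfold K
    rw [hD0.1, hD0.1, hD0.2]
    ring
  refine ⟨ζ, C₁ + 14 * M, by positivity, hζ, hζs, hζ01, hζ1, ?_⟩
  intro u F c A ε hu hF hε hA hfun
  have hA0 : 0 ≤ A := le_trans (integral_nonneg fun x => abs_nonneg _) hA
  -- the residual
  obtain ⟨r, hr⟩ : ∃ r : ℂ → ℝ, r = fun x => -Lap u x - F x := ⟨_, rfl⟩
  have hrs : ContDiffOn ℝ ∞ r (ball 0 8) := by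
    rw [hr]; exact (contDiffOn_Lap hu).neg.sub hF
  have hrf : ∀ φ : ℂ → ℝ, ContDiff ℝ ∞ φ → tsupport φ ⊆ ball 0 8 →
      |∫ x, r x * φ x| ≤ ε * Real.sqrt (∫ x, nsq φ x) := by
    intro φ hφ hφs
    obtain ⟨i1, i2, i3⟩ := ibp hu hφ hφs
    have iF : Integrable (fun x => F x * φ x) :=
      (contDiff_mul_ext hF hφ hφs).continuous.integrable_of_hasCompactSupport
        (hcs ((tsupport_mul_subset_right).trans hφs))
    have e : ∫ x, r x * φ x = (∫ x, gdot u φ x) - ∫ x, F x * φ x := by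
      have q := integral_add i2 iF
      rw [i3]
      have q2 : (fun x => r x * φ x) = fun x => -(Lap u x * φ x + F x * φ x) := by
        rw [hr]; funext x; ring
      rw [q2, integral_neg, q]
      ring
    rw [e]
    exact hfun φ hφ hφs
  obtain ⟨w_diff, w_en⟩ := hW r ε hrs hε hrf
  -- smoothness of the pieces
  have sF : ContDiff ℝ ∞ (fun y => ζ y * F y) := by
    have := contDiff_mul_ext hF hζ hζs8
    simpa [mul_comm] using this
  have sFc : HasCompactSupport (fun y => ζ y * F y) :=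
    hcs ((tsupport_mul_subset_left).trans hζs)
  have sr : ContDiff ℝ ∞ (fun y => ζ y * r y) := by
    have := contDiff_mul_ext hrs hζ hζs8
    simpa [mul_comm] using this
  have src : HasCompactSupport (fun y => ζ y * r y) :=
    hcs ((tsupport_mul_subset_left).trans hζs)
  have sL : ContDiff ℝ ∞ (fun y => u y * Lap ζ y) :=
    contDiff_mul_ext hu (contDiff_Lap hζ) ((tsupport_Lap ζ).trans hζs8)
  have sG : ContDiff ℝ ∞ (fun y => gdot ζ u y) := by
    have h : ∀ v, ContDiff ℝ ∞ (fun y => D v u y * D v ζ y) := fun v =>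
      contDiff_mul_ext (contDiffOn_D hu v) (contDiff_D hζ v) ((tsupport_D ζ v).trans hζs8)
    have := (h 1).add (h Complex.I)
    have e : (fun y => gdot ζ u y)
        = fun y => D 1 u y * D 1 ζ y + D Complex.I u y * D Complex.I ζ y := by
      funext y; unfold gdot D; ring
    rw [e]; exact this
  obtain ⟨S, hS⟩ : ∃ S : ℂ → ℝ, S = fun y => -(2 * gdot ζ u y + u y * Lap ζ y) := ⟨_, rfl⟩
  have sS : ContDiff ℝ ∞ S := by
    rw [hS]; exact ((contDiff_const.mul sG).add sL).neg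
  have sSs : tsupport S ⊆ tsupport ζ := by
    apply closure_minimal _ (isClosed_tsupport ζ)
    intro y hy
    by_contra hn
    apply hy
    have q1 : Lap ζ y = 0 := image_eq_zero_of_notMem_tsupport fun h' => hn (tsupport_Lap ζ h')
    have q2 : ∀ v, D v ζ y = 0 := fun v =>
      image_eq_zero_of_notMem_tsupport fun h' => hn (tsupport_D ζ v h')
    have q3 : gdot ζ u y = 0 := by
      have a1 := q2 1
      have a2 := q2 Complex.I
      unfold D at a1 a2
      unfold gdot
      rw [a1, a2]; ring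
    rw [hS]
    simp only [q1, q3]
    ring
  have sSc : HasCompactSupport S := hcs (sSs.trans hζs)
  -- the representation of `g`
  have hrep : ∀ x ∈ ball (0 : ℂ) 1, pot S x - c = ∫ y, K ζ x y * (u y - c) := by
    intro x hx
    obtain ⟨-, e1⟩ := pot_S h2 h4 hu hζ hζs8 c x
    rw [← e1]
    have e2 : S = fun y => -(2 * gdot ζ u y + (u y - c) * Lap ζ y) + (-c) * Lap ζ y := by
      rw [hS]; funext y; ring
    have sS1 : Continuous (fun y => -(2 * gdot ζ u y + (u y - c) * Lap ζ y)) := by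
      have : (fun y => -(2 * gdot ζ u y + (u y - c) * Lap ζ y))
          = fun y => S y + c * Lap ζ y := by rw [hS]; funext y; ring
      rw [this]
      exact sS.continuous.add (continuous_const.mul (contDiff_Lap hζ).continuous)
    have sLc : HasCompactSupport (Lap ζ) := hcs ((tsupport_Lap ζ).trans hζs)
    have sS1c : HasCompactSupport (fun y => -(2 * gdot ζ u y + (u y - c) * Lap ζ y)) := by
      have : (fun y => -(2 * gdot ζ u y + (u y - c) * Lap ζ y))
          = fun y => S y + c * Lap ζ y := by rw [hS]; funext y; ring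
      rw [this]
      exact sSc.add (sLc.mul_left)
    have q1 := pot_add h4 sS1 sS1c
      (g := fun y => (-c) * Lap ζ y) (continuous_const.mul (contDiff_Lap hζ).continuous)
      (sLc.mul_left) x
    rw [pot_smul, pot_Lap h2 h3 h4 hζ (hcs hζs)] at q1
    rw [e2, q1]
    rw [hζ1 x (closedBall_subset_closedBall (by norm_num) (ball_subset_closedBall hx))]
    ring
  have hutI : IntegrableOn (fun y => u y - c) (ball 0 4) := by
    have : ContinuousOn (fun y => u y - c) (closedBall 0 4) :=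
      (hu.continuousOn.mono (closedBall_subset_ball (by norm_num))).sub continuousOn_const
    exact (this.integrableOn_compact (isCompact_closedBall 0 4)).mono_set ball_subset_closedBall
  have hbd : ∀ x ∈ ball (0 : ℂ) 1, |pot S x - c| ≤ 7 * M * A := by
    intro x hx
    rw [hrep x hx]
    apply int_bd (by positivity) hutI hA
    intro y
    by_cases hy : 2 ≤ ‖y‖ ∧ ‖y‖ < 4
    · rw [indicator_of_mem (show y ∈ ball (0 : ℂ) 4 by rw [mem_ball_zero_iff]; exact hy.2),
        abs_mul]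
      rw [mem_ball_zero_iff] at hx
      exact mul_le_mul_of_nonneg_right (K_bd hMD hML hx hy.1 hy.2) (abs_nonneg _)
    · rw [hz x y hy, zero_mul, abs_zero]
      exact indicator_nonneg (fun z _ => by positivity) y
  have hlip : ∀ x ∈ ball (0 : ℂ) 1, ∀ x' ∈ ball (0 : ℂ) 1,
      |pot S x - pot S x'| ≤ 7 * M * ‖x - x'‖ * A := by
    intro x hx x' hx'
    have e : pot S x - pot S x' = ∫ y, (K ζ x y * (u y - c) - K ζ x' y * (u y - c)) := by
      rw [integral_sub (pot_S h2 h4 hu hζ hζs8 c x).1 (pot_S h2 h4 hu hζ hζs8 c x').1,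
        ← hrep x hx, ← hrep x' hx']
      ring
    rw [e]
    apply int_bd (by positivity) hutI hA
    intro y
    by_cases hy : 2 ≤ ‖y‖ ∧ ‖y‖ < 4
    · rw [indicator_of_mem (show y ∈ ball (0 : ℂ) 4 by rw [mem_ball_zero_iff]; exact hy.2),
        ← sub_mul, abs_mul]
      rw [mem_ball_zero_iff] at hx hx'
      exact mul_le_mul_of_nonneg_right (K_lip hMD hML hx hx' hy.1) (abs_nonneg _)
    · rw [hz x y hy, hz x' y hy, zero_mul, sub_zero, abs_zero]
      exact indicator_nonneg (fun z _ => by positivity) y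
  refine ⟨pot S, pot (fun y => ζ y * r y), ?_, w_diff, ?_, ?_, ?_, ?_⟩
  · exact (h2 S (sS.of_le (by simp)) sSc).1.contDiffOn
  · intro x hx
    have hf : ‖fderiv ℝ (pot S) x‖ ≤ 7 * M * A := by
      apply norm_fderiv_le_of_lip' ℝ (by positivity)
      filter_upwards [isOpen_ball.mem_nhds hx] with y hy
      rw [Real.norm_eq_abs]
      calc _ ≤ _ := hlip y hy x hx
        _ = _ := by ring
    have hv : ∀ v : ℂ, ‖v‖ = 1 → fderiv ℝ (pot S) x v ^ 2 ≤ (7 * M * A) ^ 2 := by
      intro v hv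
      have := (fderiv ℝ (pot S) x).le_opNorm v
      rw [hv, mul_one, Real.norm_eq_abs] at this
      exact sq_le_sq' (by linarith [abs_le.mp (this.trans hf)]) (abs_le.mp (this.trans hf)).2
    have a1 := hv 1 (by simp)
    have a2 := hv Complex.I (by simp)
    unfold nsq
    have : 14 * M * A ≤ (C₁ + 14 * M) * A := by nlinarith
    have h14 : 0 ≤ 14 * M * A := by positivity
    nlinarith [mul_self_nonneg (7 * M * A), mul_le_mul this this h14 (h14.trans this)]
  · intro x hx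
    have h7 : 0 ≤ M * A := by positivity
    have h8 : 0 ≤ C₁ * A := by positivity
    linarith [hbd x hx]
  · refine w_en.trans ?_
    have : C₁ * ε ≤ (C₁ + 14 * M) * ε := by nlinarith [mul_nonneg hM0 hε]
    exact pow_le_pow_left₀ (by positivity) this 2
  · intro x hx
    have hx1 : ζ x = 1 :=
      hζ1 x (closedBall_subset_closedBall (by norm_num) (ball_subset_closedBall hx))
    have hU : ContDiff ℝ ∞ (fun x => u x * ζ x) := contDiff_mul_ext hu hζ hζs8
    have hUc : HasCompactSupport (fun x => u x * ζ x) :=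
      hcs ((tsupport_mul_subset_right).trans hζs)
    have e1 := pot_Lap h2 h3 h4 hU hUc x
    have e2 : (fun y => (-1) * Lap (fun x => u x * ζ x) y)
        = fun y => (ζ y * F y + S y) + ζ y * r y := by
      funext y
      rw [Lap_mul_ext hu hζ hζs8, hr, hS]
      ring
    have e3 : pot (fun y => (-1) * Lap (fun x => u x * ζ x) y) x = u x := by
      rw [pot_smul, e1, hx1]; ring
    have e4 := pot_add h4 (sF.continuous.add sS.continuous) (sFc.add sSc) sr.continuous src x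
    have e5 := pot_add h4 sF.continuous sFc sS.continuous sSc x
    rw [← e3, e2, ← e5]
    exact e4

end Pool.Agent.W738.PS
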